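import Pool.Agent.Helper31.VR.Amalg

/-!
# Block B7: seven large coordinates
-/

set_option autoImplicit false

namespace Pool.Agent.Helper42.VR

open Finset

/-- dropping coordinates of coefficient `0` -/
lemma GCov.pull {ι κ : Type} [Fintype ι] [Fintype κ] {k : ι → ℝ} {D : ℝ} {y : ι → ℝ}
    (h : GCov ι k D y) (f : κ → ι) (hf : Function.Injective f)
    (h0 : ∀ i, i ∉ Set.range f → k i = 0) :
    GCov κ (fun a => k (f a)) D (fun a => y (f a)) := by
  obtain ⟨J, hJ, w, v, h1, h2, h3, h4, h5⟩ := h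
  refine ⟨J, hJ, w, fun j a => v j (f a), h1, h2, fun j a => h3 j _, fun a => h4 _,
    fun j j' hj hj' => ?_⟩
  refine (h5 j j' hj hj').trans (le_of_eq ?_)
  symm
  refine Finset.sum_of_injOn f (hf.injOn) (fun _ _ => mem_univ _) (fun i _ hi => ?_)
    (fun a _ => rfl)
  rw [h0 i (fun ⟨a, ha⟩ => hi ⟨a, by simp, ha⟩), zero_mul]

lemma Cov.toG {ι : Type} [Fintype ι] {D : ℝ} {y : ι → ℝ} (h : Cov ι D y) :
    GCov ι (fun _ => 1) D y := by
  obtain ⟨J, hJ, w, v, h1, h2, h3, h4, h5⟩ := h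
  exact ⟨J, hJ, w, v, h1, h2, h3, h4, fun j j' hj hj' => by simpa using h5 j j' hj hj'⟩

lemma GCov.toCov {ι : Type} [Fintype ι] {k : ι → ℝ} {D : ℝ} {y : ι → ℝ} (h : GCov ι k D y)
    (hk : ∀ i, k i = 1) : Cov ι D y := by
  obtain ⟨J, hJ, w, v, h1, h2, h3, h4, h5⟩ := h
  exact ⟨J, hJ, w, v, h1, h2, h3, h4, fun j j' hj hj' => by simpa [hk] using h5 j j' hj hj'⟩

/-- the nonzero even words of length 4, `-1` for the bit 1 -/
def cw : Fin 7 → Fin 4 → ℤ :=
  ![![-1, -1, 1, 1], ![-1, 1, -1, 1], ![-1, 1, 1, -1], ![1, -1, -1, 1], ![1, -1, 1, -1],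
    ![1, 1, -1, -1], ![-1, -1, -1, -1]]

def sv : Option (Fin 7) → Fin 7 ⊕ Fin 4 → ℤ
  | none => fun _ => 1
  | some i => Sum.elim (fun a => if a = i then -1 else 1) (cw i)

lemma sv_sign : ∀ o x, sv o x = 1 ∨ sv o x = -1 := by
  rintro (_ | i) x
  · exact Or.inl rfl
  · rcases x with a | j
    · show (if a = i then (-1 : ℤ) else 1) = 1 ∨ (if a = i then (-1 : ℤ) else 1) = -1
      split_ifs
      · exact Or.inr rfl
      · exact Or.inl rfl
    · revert i j
      decide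

lemma sv_inner : ∀ o o', 3 ≤ ∑ a : Fin 7, sv o (Sum.inl a) * sv o' (Sum.inl a) -
    ∑ j : Fin 4, sv o (Sum.inr j) * sv o' (Sum.inr j) := by
  decide

lemma start (e : Fin 7 → ℝ) (he : ∀ i, |e i| ≤ 1) (hs : 5 ≤ ∑ i, e i) :
    ∃ τ : Fin 4 → ℝ, (∀ j, |τ j| ≤ 1) ∧
      GCov (Fin 7 ⊕ Fin 4) (Sum.elim (fun _ => 1) (fun _ => -1)) (-3) (Sum.elim e τ) := by
  set w : Option (Fin 7) → ℝ := fun o => o.elim (1 - ∑ i, (1 - e i) / 2) (fun i => (1 - e i) / 2)
    with hw
  have hw0 : ∀ o, 0 ≤ w o := by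
    rintro (_ | i)
    · show 0 ≤ 1 - ∑ i, (1 - e i) / 2
      rw [← Finset.sum_div, Finset.sum_sub_distrib, Finset.sum_const, card_univ,
        Fintype.card_fin]
      norm_num
      linarith
    · show 0 ≤ (1 - e i) / 2
      linarith [(abs_le.1 (he i)).2]
  have hw1 : ∑ o, w o = 1 := by
    rw [Fintype.sum_option]
    show 1 - ∑ i, (1 - e i) / 2 + ∑ i, (1 - e i) / 2 = 1
    ring
  refine ⟨fun j => ∑ o, w o * (sv o (Sum.inr j) : ℝ), fun j => ?_, Option (Fin 7), inferInstance,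
    w, fun o x => (sv o x : ℝ), hw0, hw1, fun o x => ?_, fun x => ?_, fun o o' _ _ => ?_⟩
  · refine (Finset.abs_sum_le_sum_abs _ _).trans ?_
    rw [← hw1]
    refine Finset.sum_le_sum fun o _ => ?_
    rw [abs_mul, abs_of_nonneg (hw0 o)]
    have : |(sv o (Sum.inr j) : ℝ)| = 1 := by
      rcases sv_sign o (Sum.inr j) with h | h <;> rw [h] <;> norm_num
    rw [this, mul_one]
  · show (sv o x : ℝ) = 1 ∨ (sv o x : ℝ) = -1
    rcases sv_sign o x with h | h
    · left; rw [h]; norm_num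
    · right; rw [h]; norm_num
  · rcases x with a | j
    · show ∑ o, w o * (sv o (Sum.inl a) : ℝ) = e a
      have h1 : ∀ o : Option (Fin 7), w o * (sv o (Sum.inl a) : ℝ) =
          w o - 2 * (if o = some a then w o else 0) := by
        rintro (_ | i)
        · show w none * ((1 : ℤ) : ℝ) = w none - 2 * (if none = some a then w none else 0)
          rw [if_neg (by simp)]
          push_cast
          ring
        · show w (some i) * (((if a = i then (-1 : ℤ) else 1) : ℤ) : ℝ) =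
            w (some i) - 2 * (if some i = some a then w (some i) else 0)
          by_cases h : a = i
          · rw [if_pos h, if_pos (by rw [h])]
            push_cast
            ring
          · rw [if_neg h, if_neg (by simpa using fun h' => h h'.symm)]
            push_cast
            ring
      rw [Finset.sum_congr rfl fun o _ => h1 o, Finset.sum_sub_distrib, hw1, ← Finset.mul_sum,
        Finset.sum_ite_eq' univ (some a) w, if_pos (mem_univ _)]
      show 1 - 2 * ((1 - e a) / 2) = e a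
      ring
    · rfl
  · have h1 := sv_inner o o'
    rw [Fintype.sum_sum_type]
    simp only [Sum.elim_inl, Sum.elim_inr, one_mul, neg_mul, Finset.sum_neg_distrib]
    have h2 : (3 : ℝ) ≤ ∑ a : Fin 7, (sv o (Sum.inl a) : ℝ) * (sv o' (Sum.inl a) : ℝ) -
        ∑ j : Fin 4, (sv o (Sum.inr j) : ℝ) * (sv o' (Sum.inr j) : ℝ) := by exact_mod_cast h1
    linarith

theorem cov_seven {N : ℕ} (hT : T N) {ι : Type} [Fintype ι] (hι : Fintype.card ι + 2 = N)
    (e : Fin 7 → ℝ) (g : Fin 4 → ι → ℝ) (he : ∀ i, |e i| ≤ 1) (hg : ∀ j i, |g j i| ≤ 1)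
    (hs : 5 ≤ ∑ i, e i) : Cov (Fin 7 ⊕ (Fin 4 × ι)) 1 (Sum.elim e (fun q => g q.1 q.2)) := by
  classical
  obtain ⟨τ, hτ, h0⟩ := start e he hs
  have hG : ∀ j, GCov (Option ι) (fun _ => 1) 1 (fun o => o.elim (τ j) (g j)) := fun j => by
    refine (hT (Option ι) (by rw [Fintype.card_option]; omega) _ ?_).toG
    rintro (_ | i)
    · exact hτ j
    · exact hg j i
  have h1 := GCov.amalg (Sum.inr 0) h0 (hG 0)
  have h2 := GCov.amalg (Sum.inl (Sum.inr 1)) h1 (hG 1)
  have h3 := GCov.amalg (Sum.inl (Sum.inl (Sum.inr 2))) h2 (hG 2)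
  have h4 := GCov.amalg (Sum.inl (Sum.inl (Sum.inl (Sum.inr 3)))) h3 (hG 3)
  let f : Fin 7 ⊕ (Fin 4 × ι) → ((((Fin 7 ⊕ Fin 4) ⊕ ι) ⊕ ι) ⊕ ι) ⊕ ι := fun x =>
    match x with
    | Sum.inl a => Sum.inl (Sum.inl (Sum.inl (Sum.inl (Sum.inl a))))
    | Sum.inr (0, i) => Sum.inl (Sum.inl (Sum.inl (Sum.inr i)))
    | Sum.inr (1, i) => Sum.inl (Sum.inl (Sum.inr i))
    | Sum.inr (2, i) => Sum.inl (Sum.inr i)
    | Sum.inr (3, i) => Sum.inr i
  have hf : Function.Injective f := by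
    intro x x' hx
    rcases x with a | ⟨j, i⟩ <;> rcases x' with a' | ⟨j', i'⟩
    · simpa [f] using hx
    · fin_cases j' <;> simp [f] at hx
    · fin_cases j <;> simp [f] at hx
    · fin_cases j <;> fin_cases j' <;> simp_all [f]
  have h5 := h4.pull f hf (by
    rintro (((((a | j) | i) | i) | i) | i) hx
    · exact absurd ⟨Sum.inl a, rfl⟩ hx
    · fin_cases j <;> simp
    · exact absurd ⟨Sum.inr (0, i), rfl⟩ hx
    · exact absurd ⟨Sum.inr (1, i), rfl⟩ hx
    · exact absurd ⟨Sum.inr (2, i), rfl⟩ hx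
    · exact absurd ⟨Sum.inr (3, i), rfl⟩ hx)
  have h6 := h5.toCov (by
    rintro (a | ⟨j, i⟩)
    · simp [f]
    · fin_cases j <;> simp [f])
  have e1 : (fun a => Sum.elim (Sum.elim (Sum.elim (Sum.elim (Sum.elim e τ) (g 0)) (g 1)) (g 2))
      (g 3) (f a)) = Sum.elim e (fun q : Fin 4 × ι => g q.1 q.2) := by
    funext x
    rcases x with a | ⟨j, i⟩
    · rfl
    · fin_cases j <;> rfl
  rw [e1] at h6
  exact h6.mono (by norm_num)

end Pool.Agent.Helper42.VR
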