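import Pool.Agent.Helper42.VR.Pow.Frame

/-!
# The two frames, of order `12` and `20`
-/

set_option autoImplicit false

namespace Pool.Agent.Helper42.VR

open Finset

/-- Sum of the first `b` columns. -/
def SZ {n : ℕ} (V : Fin (n + 1) → Fin n → ℤ) (b : ℕ) (a : Fin (n + 1)) : ℤ :=
  ∑ j : Fin n, if (j : ℕ) < b then V a j else 0

/-- `cov_frame` for integer data. -/
theorem cov_frame_int {n : ℕ} (hn : 4 ≤ n) (V : Fin (n + 1) → Fin n → ℤ) (T U : ℕ → ℤ)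
    (h1 : ∀ i j, V i j = 1 ∨ V i j = -1) (h2 : ∀ i k, i ≠ k → ∑ j, V i j * V k j = -1)
    (h3 : ∀ j, ∑ i, V i j = 0)
    (h4 : ∀ j l, ∑ i, V i j * V i l = if j = l then (n : ℤ) + 1 else 0)
    (c2 : ∑ a, (SZ V 2 a).natAbs ≤ n + 1) (c3 : 2 * ∑ a, (SZ V 3 a).natAbs ≤ 3 * (n + 1))
    (c13 : ∑ a, (SZ V 1 a + SZ V 3 a).natAbs ≤ 2 * (n + 1))
    (c4 : ∀ b, b < n + 1 → 4 ≤ b → ∑ a, (SZ V b a - T b).natAbs ≤ 2 * (n + 1))
    (c5 : ∀ b, b < n + 1 → 4 ≤ b → ∑ a, (2 * SZ V 1 a + SZ V b a - U b).natAbs ≤ 3 * (n + 1))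
    {x : ℕ → ℝ} (hx : Antitone x) (h0 : ∀ k, 0 ≤ x k) (hx1 : ∀ k, x k ≤ 1)
    (hs : x 1 + x 2 + x 3 + x 4 ≤ 2) : Cov (Fin n) 1 (fun i => x (i + 1)) := by
  have hna : ∀ z : ℤ, ((z.natAbs : ℕ) : ℝ) = |(z : ℝ)| := by
    intro z
    rw [← Int.cast_abs, Int.abs_eq_natAbs]
    simp
  refine cov_frame hn (v := fun i j => (V i j : ℝ)) ?_ ?_ ?_ ?_ (fun b a => (SZ V b a : ℝ)) ?_
    ?_ ?_ ?_ ?_ ?_ hx h0 hx1 hs
  · intro i j
    rcases h1 i j with h | h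
    · left
      show (V i j : ℝ) = 1
      rw [h]; norm_num
    · right
      show (V i j : ℝ) = -1
      rw [h]; norm_num
  · intro i k hik
    have := h2 i k hik
    show ∑ j, (V i j : ℝ) * (V k j : ℝ) = -1
    exact_mod_cast this
  · intro j
    have := h3 j
    show ∑ i, (V i j : ℝ) = 0
    exact_mod_cast this
  · intro j l
    have := h4 j l
    show ∑ i, (V i j : ℝ) * (V i l : ℝ) = if j = l then (n : ℝ) + 1 else 0
    have h5 : ((∑ i, V i j * V i l : ℤ) : ℝ) = ((if j = l then (n : ℤ) + 1 else 0 : ℤ) : ℝ) := by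
      rw [this]
    push_cast at h5
    rw [h5]
  · intro b a
    show ((SZ V b a : ℤ) : ℝ) = ∑ j : Fin n, if (j : ℕ) < b then (V a j : ℝ) else 0
    unfold SZ
    push_cast
    refine Finset.sum_congr rfl fun j _ => ?_
    split_ifs <;> simp
  · show ∑ a, |((SZ V 2 a : ℤ) : ℝ)| ≤ (n : ℝ) + 1
    simp only [← hna]
    exact_mod_cast c2
  · show ∑ a, |((SZ V 3 a : ℤ) : ℝ)| ≤ 3 / 2 * ((n : ℝ) + 1)
    simp only [← hna]
    have h5 : (2 : ℝ) * ∑ a, ((SZ V 3 a).natAbs : ℝ) ≤ 3 * ((n : ℝ) + 1) := by exact_mod_cast c3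
    linarith
  · show ∑ a, |((SZ V 1 a : ℤ) : ℝ) + ((SZ V 3 a : ℤ) : ℝ)| ≤ 2 * ((n : ℝ) + 1)
    have h5 : ∀ a, |((SZ V 1 a : ℤ) : ℝ) + ((SZ V 3 a : ℤ) : ℝ)|
        = (((SZ V 1 a + SZ V 3 a).natAbs : ℕ) : ℝ) := by
      intro a
      rw [hna]
      push_cast
      rfl
    rw [Finset.sum_congr rfl fun a _ => h5 a]
    exact_mod_cast c13
  · intro b hb hbn
    refine ⟨(T b : ℝ), ?_⟩
    show ∑ a, |((SZ V b a : ℤ) : ℝ) - (T b : ℝ)| ≤ 2 * ((n : ℝ) + 1)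
    have h5 : ∀ a, |((SZ V b a : ℤ) : ℝ) - (T b : ℝ)|
        = (((SZ V b a - T b).natAbs : ℕ) : ℝ) := by
      intro a
      rw [hna]
      push_cast
      rfl
    rw [Finset.sum_congr rfl fun a _ => h5 a]
    exact_mod_cast c4 b (by omega) hb
  · intro b hb hbn
    refine ⟨(U b : ℝ), ?_⟩
    show ∑ a, |2 * ((SZ V 1 a : ℤ) : ℝ) + ((SZ V b a : ℤ) : ℝ) - (U b : ℝ)| ≤ 3 * ((n : ℝ) + 1)
    have h5 : ∀ a, |2 * ((SZ V 1 a : ℤ) : ℝ) + ((SZ V b a : ℤ) : ℝ) - (U b : ℝ)|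
        = (((2 * SZ V 1 a + SZ V b a - U b).natAbs : ℕ) : ℝ) := by
      intro a
      rw [hna]
      push_cast
      rfl
    rw [Finset.sum_congr rfl fun a _ => h5 a]
    exact_mod_cast c5 b (by omega) hb

/-- The rows of a matrix of signs from the masks of the rows. -/
def ofMasks (M : List ℕ) (n : ℕ) : Fin (n + 1) → Fin n → ℤ :=
  fun a j => if Nat.testBit (M.getD a 0) j then 1 else -1

def M12 : List ℕ := [2047, 1414, 944, 285, 236, 1673, 1377, 842, 1620, 211, 1082, 551]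

def M20 : List ℕ := [524287, 158254, 369548, 202044, 445705, 331287, 98112, 301688, 181972, 117170,
  118863, 2027, 48293, 287093, 399814, 176915, 291994, 500834, 207065, 479905]

def T12 : List ℤ := [0, -1, 0, -1, 0, -1, -2, -1, -2, -1, 0, -1]

def U12 : List ℤ := [0, -3, -2, -1, -2, -1, 0, -1, 0, -1, -2, -3]

def T20 : List ℤ := [0, -1, 0, -1, 0, -1, 0, -1, 0, -1, 0, -1, 0, -1, 0, -1, 0, -1, 0, -1]

def U20 : List ℤ := [0, -3, -2, -1, 0, -1, 0, -1, -2, -1, -2, -1, -2, -1, -2, -1, -2, -1, -2, -3]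

theorem cov_frame12 {x : ℕ → ℝ} (hx : Antitone x) (h0 : ∀ k, 0 ≤ x k) (hx1 : ∀ k, x k ≤ 1)
    (hs : x 1 + x 2 + x 3 + x 4 ≤ 2) : Cov (Fin 11) 1 (fun i => x (i + 1)) := by
  refine cov_frame_int (by norm_num) (ofMasks M12 11) (fun b => T12.getD b 0)
    (fun b => U12.getD b 0) ?_ ?_ ?_ ?_ ?_ ?_ ?_ ?_ ?_ hx h0 hx1 hs
  all_goals decide +kernel

theorem cov_frame20 {x : ℕ → ℝ} (hx : Antitone x) (h0 : ∀ k, 0 ≤ x k) (hx1 : ∀ k, x k ≤ 1)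
    (hs : x 1 + x 2 + x 3 + x 4 ≤ 2) : Cov (Fin 19) 1 (fun i => x (i + 1)) := by
  refine cov_frame_int (by norm_num) (ofMasks M20 19) (fun b => T20.getD b 0)
    (fun b => U20.getD b 0) ?_ ?_ ?_ ?_ ?_ ?_ ?_ ?_ ?_ hx h0 hx1 hs
  all_goals decide +kernel

end Pool.Agent.Helper42.VR
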