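import Pool.Agent.Helper42.VR.Pow.Defs

/-!
# Block TOP: large coordinate sums
-/

set_option autoImplicit false

namespace Pool.Agent.Helper42.VR

open Finset

/-- the hypersimplex: a point of the unit cube with coordinate sum at most `m` is an average of
`0/1` vectors with coordinate sum at most `m` -/
lemma hyper {κ : Type} [Fintype κ] [DecidableEq κ] (m : ℕ) : ∀ (n : ℕ) (p : κ → ℝ),
    (∀ i, 0 ≤ p i) → (∀ i, p i ≤ 1) → ∑ i, p i ≤ m →
    (univ.filter fun i => p i ≠ 0 ∧ p i ≠ 1).card ≤ n →
    p ∈ convexHull ℝ {z : κ → ℝ | (∀ i, z i = 0 ∨ z i = 1) ∧ ∑ i, z i ≤ m} := by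
  intro n
  induction n with
  | zero =>
    intro p h0 h1 hs hc
    refine subset_convexHull ℝ _ ⟨fun i => ?_, hs⟩
    by_contra hi
    rw [not_or] at hi
    have : i ∈ univ.filter fun i => p i ≠ 0 ∧ p i ≠ 1 := mem_filter.2 ⟨mem_univ i, hi⟩
    have h2 := card_pos.2 ⟨i, this⟩
    omega
  | succ n ih =>
    intro p h0 h1 hs hc
    by_cases hc' : (univ.filter fun i => p i ≠ 0 ∧ p i ≠ 1).card ≤ n
    · exact ih p h0 h1 hs hc'
    have hpos : 0 < (univ.filter fun i => p i ≠ 0 ∧ p i ≠ 1).card := by omega
    obtain ⟨i, hi⟩ := card_pos.1 hpos
    obtain ⟨-, hi0, hi1⟩ := mem_filter.1 hi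
    have hi0' : 0 < p i := lt_of_le_of_ne (h0 i) (Ne.symm hi0)
    have hi1' : p i < 1 := lt_of_le_of_ne (h1 i) hi1
    by_cases hj : ∃ j, j ≠ i ∧ p j ≠ 0 ∧ p j ≠ 1
    · obtain ⟨j, hji, hj0, hj1⟩ := hj
      have hj0' : 0 < p j := lt_of_le_of_ne (h0 j) (Ne.symm hj0)
      have hj1' : p j < 1 := lt_of_le_of_ne (h1 j) hj1
      -- moving along `e_i - e_j`
      have key : ∀ t : ℝ, 0 ≤ p i + t → p i + t ≤ 1 → 0 ≤ p j - t → p j - t ≤ 1 →
          (p i + t = 0 ∨ p i + t = 1 ∨ p j - t = 0 ∨ p j - t = 1) →
          (Function.update (Function.update p i (p i + t)) j (p j - t)) ∈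
            convexHull ℝ {z : κ → ℝ | (∀ i, z i = 0 ∨ z i = 1) ∧ ∑ i, z i ≤ m} := by
        intro t ht1 ht2 ht3 ht4 ht5
        set q := Function.update (Function.update p i (p i + t)) j (p j - t) with hq
        have qi : q i = p i + t := by
          rw [hq, Function.update_of_ne hji.symm, Function.update_self]
        have qj : q j = p j - t := by rw [hq, Function.update_self]
        have qk : ∀ k, k ≠ i → k ≠ j → q k = p k := fun k hki hkj => by
          rw [hq, Function.update_of_ne hkj, Function.update_of_ne hki]
        refine ih q ?_ ?_ ?_ ?_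
        · intro k
          by_cases hki : k = i
          · rw [hki, qi]; exact ht1
          by_cases hkj : k = j
          · rw [hkj, qj]; exact ht3
          rw [qk k hki hkj]; exact h0 k
        · intro k
          by_cases hki : k = i
          · rw [hki, qi]; exact ht2
          by_cases hkj : k = j
          · rw [hkj, qj]; exact ht4
          rw [qk k hki hkj]; exact h1 k
        · have e1 : ∑ k, q k = ∑ k, p k := by
            have hd : ∑ k, (q k - p k) = 0 := by
              rw [← Finset.sum_subset (subset_univ {i, j})]
              · rw [Finset.sum_pair hji.symm, qi, qj]; ring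
              · intro k _ hk
                rw [mem_insert, mem_singleton, not_or] at hk
                rw [qk k hk.1 hk.2, sub_self]
            rw [Finset.sum_sub_distrib] at hd
            linarith
          rw [e1]; exact hs
        · -- one fractional coordinate less
          have hsub : ∀ l, (l = i ∨ l = j) → (q l = 0 ∨ q l = 1) →
              (univ.filter fun k => q k ≠ 0 ∧ q k ≠ 1) ⊆
                (univ.filter fun k => p k ≠ 0 ∧ p k ≠ 1).erase l := by
            intro l _ hl k hk
            obtain ⟨-, hk0, hk1⟩ := mem_filter.1 hk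
            rw [mem_erase, mem_filter]
            refine ⟨?_, mem_univ k, ?_⟩
            · rintro rfl
              rcases hl with h | h
              · exact hk0 h
              · exact hk1 h
            · by_cases hki : k = i
              · rw [hki]; exact ⟨hi0, hi1⟩
              by_cases hkj : k = j
              · rw [hkj]; exact ⟨hj0, hj1⟩
              rw [qk k hki hkj] at hk0 hk1
              exact ⟨hk0, hk1⟩
          have hcard : ∀ l, (l = i ∨ l = j) → (q l = 0 ∨ q l = 1) →
              (univ.filter fun k => q k ≠ 0 ∧ q k ≠ 1).card ≤ n := by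
            intro l hl hql
            have hm : l ∈ univ.filter fun k => p k ≠ 0 ∧ p k ≠ 1 := by
              rcases hl with rfl | rfl
              · exact mem_filter.2 ⟨mem_univ _, hi0, hi1⟩
              · exact mem_filter.2 ⟨mem_univ _, hj0, hj1⟩
            have h2 := card_le_card (hsub l hl hql)
            rw [card_erase_of_mem hm] at h2
            omega
          rcases ht5 with h | h | h | h
          · exact hcard i (Or.inl rfl) (Or.inl (qi.trans h))
          · exact hcard i (Or.inl rfl) (Or.inr (qi.trans h))
          · exact hcard j (Or.inr rfl) (Or.inl (qj.trans h))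
          · exact hcard j (Or.inr rfl) (Or.inr (qj.trans h))
      set a := min (1 - p i) (p j) with ha
      set b := min (p i) (1 - p j) with hb
      have ha0 : 0 < a := lt_min (by linarith) hj0'
      have hb0 : 0 < b := lt_min hi0' (by linarith)
      have ha1 : a ≤ 1 - p i := min_le_left _ _
      have ha2 : a ≤ p j := min_le_right _ _
      have hb1 : b ≤ p i := min_le_left _ _
      have hb2 : b ≤ 1 - p j := min_le_right _ _
      have hA := key a (by linarith) (by linarith) (by linarith) (by linarith) (by
        rcases min_choice (1 - p i) (p j) with h | h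
        · right; left; rw [ha, h]; ring
        · right; right; left; rw [ha, h]; ring)
      have hB := key (-b) (by linarith) (by linarith) (by linarith) (by linarith) (by
        rcases min_choice (p i) (1 - p j) with h | h
        · left; rw [hb, h]; ring
        · right; right; right; rw [hb, h]; ring)
      have hab : 0 < a + b := by linarith
      have hmem := (convex_convexHull ℝ
        {z : κ → ℝ | (∀ i, z i = 0 ∨ z i = 1) ∧ ∑ i, z i ≤ m}) hA hB
        (a := b / (a + b)) (b := a / (a + b)) (by positivity) (by positivity)
        (by field_simp; ring)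
      have e : p = (b / (a + b)) • (Function.update (Function.update p i (p i + a)) j (p j - a)) +
          (a / (a + b)) • (Function.update (Function.update p i (p i + -b)) j (p j - -b)) := by
        funext k
        simp only [Pi.add_apply, Pi.smul_apply, smul_eq_mul]
        by_cases hkj : k = j
        · subst hkj
          rw [Function.update_self, Function.update_self]
          field_simp
          ring
        by_cases hki : k = i
        · subst hki
          rw [Function.update_of_ne hji.symm, Function.update_self, Function.update_of_ne hji.symm,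
            Function.update_self]
          field_simp
          ring
        · rw [Function.update_of_ne hkj, Function.update_of_ne hki, Function.update_of_ne hkj,
            Function.update_of_ne hki]
          field_simp
          ring
      rw [e]
      exact hmem
    · push Not at hj
      have hk : ∀ k, k ≠ i → p k = 0 ∨ p k = 1 := fun k hki => by
        by_cases h : p k = 0
        · exact Or.inl h
        · exact Or.inr (hj k hki h)
      have e0 : ∑ k, p k = p i + ((univ.erase i).filter fun k => p k = 1).card := by
        rw [← Finset.add_sum_erase univ p (mem_univ i)]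
        congr 1
        rw [Finset.card_filter]
        push_cast
        refine Finset.sum_congr rfl fun k hk' => ?_
        rcases hk k (Finset.ne_of_mem_erase hk') with h | h
        · rw [h]; norm_num
        · rw [h]; norm_num
      set s := ((univ.erase i).filter fun k => p k = 1).card with hs'
      have hsm : s + 1 ≤ m := by
        have h2 : (s : ℝ) < m := by linarith
        have h3 : s < m := by exact_mod_cast h2
        omega
      have hsm' : (s : ℝ) + 1 ≤ m := by exact_mod_cast hsm
      have key : ∀ c : ℝ, (c = 0 ∨ c = 1) → Function.update p i c ∈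
          convexHull ℝ {z : κ → ℝ | (∀ i, z i = 0 ∨ z i = 1) ∧ ∑ i, z i ≤ m} := by
        intro c hc0
        refine subset_convexHull ℝ _ ⟨fun k => ?_, ?_⟩
        · by_cases hki : k = i
          · rw [hki, Function.update_self]; exact hc0
          · rw [Function.update_of_ne hki]; exact hk k hki
        · have e1 : ∑ k, Function.update p i c k = c + (∑ k, p k - p i) := by
            rw [← Finset.add_sum_erase univ (Function.update p i c) (mem_univ i),
              ← Finset.add_sum_erase univ p (mem_univ i), Function.update_self]
            have : ∑ x ∈ univ.erase i, Function.update p i c x = ∑ x ∈ univ.erase i, p x :=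
              Finset.sum_congr rfl fun k hk' => by
                rw [Function.update_of_ne (Finset.ne_of_mem_erase hk')]
            rw [this]; ring
          rw [e1, e0]
          rcases hc0 with rfl | rfl <;> linarith
      have hmem := (convex_convexHull ℝ
        {z : κ → ℝ | (∀ i, z i = 0 ∨ z i = 1) ∧ ∑ i, z i ≤ m}) (key 0 (Or.inl rfl))
        (key 1 (Or.inr rfl)) (a := 1 - p i) (b := p i) (by linarith) (by linarith) (by ring)
      have e : p = (1 - p i) • (Function.update p i 0) + (p i) • (Function.update p i 1) := by
        funext k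
        simp only [Pi.add_apply, Pi.smul_apply, smul_eq_mul]
        by_cases hki : k = i
        · subst hki
          rw [Function.update_self, Function.update_self]; ring
        · rw [Function.update_of_ne hki, Function.update_of_ne hki]; ring
      rw [e]
      exact hmem

/-- product of coverings on a sum type -/
lemma Cov.sum {ι κ : Type} [Fintype ι] [Fintype κ] {D D' : ℝ} {y : ι → ℝ} {z : κ → ℝ}
    (h : Cov ι D y) (h' : Cov κ D' z) : Cov (ι ⊕ κ) (D + D') (Sum.elim y z) := by
  obtain ⟨J, hJ, w, v, h1, h2, h3, h4, h5⟩ := h
  obtain ⟨J', hJ', w', v', h1', h2', h3', h4', h5'⟩ := h'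
  refine ⟨J × J', inferInstance, fun q => w q.1 * w' q.2, fun q => Sum.elim (v q.1) (v' q.2),
    fun q => mul_nonneg (h1 _) (h1' _), ?_, ?_, ?_, ?_⟩
  · rw [Fintype.sum_prod_type]
    simp only [← Finset.mul_sum, h2', mul_one, h2]
  · rintro q (i | i)
    · exact h3 _ _
    · exact h3' _ _
  · rintro (i | i)
    · simp only [Sum.elim_inl]
      rw [Fintype.sum_prod_type]
      have : ∀ a : J, ∑ b : J', w a * w' b * v a i = w a * v a i := by
        intro a
        calc ∑ b : J', w a * w' b * v a i = (w a * v a i) * ∑ b : J', w' b := by
              rw [Finset.mul_sum]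
              exact Finset.sum_congr rfl fun b _ => by ring
          _ = _ := by rw [h2', mul_one]
      simp only [this]
      exact h4 i
    · simp only [Sum.elim_inr]
      rw [Fintype.sum_prod_type_right]
      have : ∀ b : J', ∑ a : J, w a * w' b * v' b i = w' b * v' b i := by
        intro b
        calc ∑ a : J, w a * w' b * v' b i = (w' b * v' b i) * ∑ a : J, w a := by
              rw [Finset.mul_sum]
              exact Finset.sum_congr rfl fun a _ => by ring
          _ = _ := by rw [h2, mul_one]
      simp only [this]
      exact h4' i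
  · rintro ⟨a, b⟩ ⟨a', b'⟩ hj hj'
    rw [Fintype.sum_sum_type]
    simp only [Sum.elim_inl, Sum.elim_inr]
    linarith [h5 a a' (left_ne_zero_of_mul hj) (left_ne_zero_of_mul hj'),
      h5' b b' (right_ne_zero_of_mul hj) (right_ne_zero_of_mul hj')]

theorem cov_top {m : ℕ} (hT : T (4 * m)) {ι κ : Type} [Fintype ι] [Fintype κ]
    (hι : Fintype.card ι + 1 = 4 * m) (hκ : Fintype.card κ = 4 * m) (e : κ → ℝ) (g : ι → ℝ)
    (he : ∀ i, |e i| ≤ 1) (hg : ∀ i, |g i| ≤ 1) (hs : 2 * (m : ℝ) ≤ ∑ i, e i) :
    Cov (κ ⊕ ι) 1 (Sum.elim e g) := by
  classical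
  have hcard : ∑ _i : κ, (1 : ℝ) = 4 * m := by
    rw [Finset.sum_const, card_univ, hκ, nsmul_eq_mul, mul_one]
    push_cast
    ring
  have hA : Cov κ 0 e := by
    have hp := hyper m _ (fun i => (1 - e i) / 2)
      (fun i => by linarith [(abs_le.1 (he i)).2]) (fun i => by linarith [(abs_le.1 (he i)).1])
      (by
        rw [← Finset.sum_div, Finset.sum_sub_distrib, hcard]
        linarith) le_rfl
    obtain ⟨J, hJ, w, z, hw, hw1, hz, hzp⟩ := mem_convexHull_iff_exists_fintype.1 hp
    refine ⟨J, hJ, w, fun j i => 1 - 2 * z j i, hw, hw1, fun j i => ?_, fun i => ?_,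
      fun j j' _ _ => ?_⟩
    · rcases (hz j).1 i with h | h
      · left; show 1 - 2 * z j i = 1; rw [h]; ring
      · right; show 1 - 2 * z j i = -1; rw [h]; ring
    · have h1 := congrFun hzp i
      rw [Finset.sum_apply] at h1
      simp only [Pi.smul_apply, smul_eq_mul] at h1
      have h2 : ∑ j, w j * (1 - 2 * z j i) = ∑ j, w j - 2 * ∑ j, w j * z j i := by
        rw [Finset.mul_sum, ← Finset.sum_sub_distrib]
        exact Finset.sum_congr rfl fun j _ => by ring
      rw [h2, hw1, h1]
      ring
    · have h1 : ∀ i, 1 - 2 * z j i - 2 * z j' i ≤ (1 - 2 * z j i) * (1 - 2 * z j' i) := by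
        intro i
        have h2 : 0 ≤ z j i := by rcases (hz j).1 i with h | h <;> rw [h] <;> norm_num
        have h3 : 0 ≤ z j' i := by rcases (hz j').1 i with h | h <;> rw [h] <;> norm_num
        nlinarith [mul_nonneg h2 h3]
      have h2 := Finset.sum_le_sum fun i (_ : i ∈ univ) => h1 i
      rw [Finset.sum_sub_distrib, Finset.sum_sub_distrib, ← Finset.mul_sum, ← Finset.mul_sum,
        hcard] at h2
      have h3 : ∑ i, z j i ≤ m := (hz j).2
      have h4 : ∑ i, z j' i ≤ m := (hz j').2
      linarith
  have hB : Cov ι 1 g := hT ι hι g hg
  exact (hA.sum hB).mono (by norm_num)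

end Pool.Agent.Helper42.VR
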